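import Mathlib
import Pool.Agent.Q230.BzWt

/-!
# 2-adic continuity of weighted trimer tilings of `(n, 2n-4)`-benzels

MP_6d1bd2_co, Q1: the function `f(n) = T₁₁₃(n, 2n-4; 3)`, `n ≥ 5`, is 2-adically continuous, where
`T₁₁₃(a,b;3)` is the sum of `3 ^ (number of stones)` over all tilings of the `(a,b)`-benzel by right
stones, left stones and bones of the three directions.

The definitions `benzel`, `IsRightStone`, `IsLeftStone`, `IsBone`, `IsTiling` are in
`Pool/Agent/Q230/BzDefs.lean`; `stoneCount` and `weightedTilings` are in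
`Pool/Agent/Q230/BzWt.lean`.
-/

namespace Pool.Agent.Results.MP_6d1bd2_co.TwoAdicWeighted

open Q230.Benzel

/-- `f(n) = T₁₁₃(n, 2n-4; 3)` -/
noncomputable def f (n : ℕ) : ℕ := weightedTilings 3 (benzel n (2*n-4))

theorem result : ∀ k : ℕ, 1 ≤ k → ∃ j : ℕ, ∀ m n : ℕ, 5 ≤ m → 5 ≤ n →
    m ≡ n [MOD 2^j] → f m ≡ f n [MOD 2^k] :=
  fun k hk => Q230.Bz.contB3 k hk

end Pool.Agent.Results.MP_6d1bd2_co.TwoAdicWeighted
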